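import Pool.Agent.Helper46.CU.Stmts

set_option autoImplicit false

/-! MP_040934_nt: few `a` for which `a³ - 1` has a large square divisor. -/

namespace Pool.Agent.Helper46.CU

open Finset

theorem lrg_harm (A : ℕ) : ∑ s ∈ Icc 1 A, 1 / (s : ℝ) ≤ 1 + Real.log A := by
  have h := harmonic_le_one_add_log A
  rw [harmonic_eq_sum_Icc] at h
  push_cast at h
  refine le_trans (le_of_eq ?_) h
  apply Finset.sum_congr rfl
  intro s _
  rw [one_div]

theorem lrg_inv2 {A : ℕ} {T : ℝ} (hT : 0 < T) (S : Finset ℕ) (hS : S ⊆ Icc 1 A)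
    (hS' : ∀ s ∈ S, T < s) : ∑ s ∈ S, (A : ℝ) / (s : ℝ) ^ 2 ≤ A / T * (1 + Real.log A) := by
  have h1 : ∑ s ∈ S, (A : ℝ) / (s : ℝ) ^ 2 ≤ ∑ s ∈ S, A / T * (1 / (s : ℝ)) := by
    apply Finset.sum_le_sum
    intro s hs
    have h2 := hS' s hs
    have h3 : (0 : ℝ) < s := hT.trans h2
    rw [div_mul_div_comm, mul_one, pow_two]
    apply div_le_div_of_nonneg_left (Nat.cast_nonneg A) (by positivity)
    exact mul_le_mul_of_nonneg_right h2.le h3.le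
  refine h1.trans ?_
  rw [← Finset.mul_sum]
  apply mul_le_mul_of_nonneg_left _ (by positivity)
  refine le_trans ?_ (lrg_harm A)
  exact Finset.sum_le_sum_of_subset_of_nonneg hS fun s _ _ => by positivity

/-- the `a` with `r² ∣ a - 1` -/
noncomputable def lrg_dv (r A : ℕ) : Finset ℕ := by
  classical exact (Icc 2 A).filter (fun a => r ^ 2 ∣ a - 1)

theorem lrg_dv_card {r A : ℕ} (hr : 1 ≤ r) : ((lrg_dv r A).card : ℝ) ≤ (A : ℝ) / (r : ℝ) ^ 2 := by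
  have h1 : (lrg_dv r A).card ≤ (Icc 1 (A / r ^ 2)).card := by
    apply Finset.card_le_card_of_injOn (fun a => (a - 1) / r ^ 2)
    · intro a ha
      unfold lrg_dv at ha
      rw [Finset.mem_coe, mem_filter, mem_Icc] at ha
      obtain ⟨⟨h2, h3⟩, h4⟩ := ha
      have hr2 : 0 < r ^ 2 := by positivity
      rw [Finset.mem_coe, mem_Icc]
      refine ⟨?_, Nat.div_le_div_right (by omega)⟩
      exact Nat.div_pos (Nat.le_of_dvd (by omega) h4) hr2
    · intro a ha b hb hab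
      unfold lrg_dv at ha hb
      rw [Finset.mem_coe, mem_filter, mem_Icc] at ha hb
      simp only at hab
      have h5 : a - 1 = b - 1 := by
        rw [← Nat.div_mul_cancel ha.2, hab, Nat.div_mul_cancel hb.2]
      omega
  rw [Nat.card_Icc, Nat.add_sub_cancel] at h1
  have h2 : ((lrg_dv r A).card : ℝ) ≤ ((A / r ^ 2 : ℕ) : ℝ) := by exact_mod_cast h1
  refine h2.trans ?_
  have h3 := Nat.cast_div_le (α := ℝ) (m := A) (n := r ^ 2)
  push_cast at h3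
  exact h3

theorem lrg_count {R : ℝ} (hR : 0 ≤ R) (S : Finset ℕ) (hS : ∀ s ∈ S, 1 ≤ s ∧ (s : ℝ) ≤ R) :
    (S.card : ℝ) ≤ R := by
  have h1 : S ⊆ Icc 1 ⌊R⌋₊ := by
    intro s hs
    rw [mem_Icc]
    exact ⟨(hS s hs).1, Nat.le_floor (hS s hs).2⟩
  have h2 := Finset.card_le_card h1
  rw [Nat.card_Icc, Nat.add_sub_cancel] at h2
  exact (by exact_mod_cast h2 : (S.card : ℝ) ≤ (⌊R⌋₊ : ℝ)).trans (Nat.floor_le hR)

theorem lrg_log {ε : ℝ} (hε : 0 < ε) {A : ℕ} (hA : 1 ≤ A) :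
    (1 + Real.log A) ^ 2 ≤ (1 + 4 / ε) ^ 2 * (A : ℝ) ^ (ε / 2) := by
  have hA' : (1 : ℝ) ≤ A := by exact_mod_cast hA
  have h1 := Real.log_le_rpow_div (x := (A : ℝ)) (ε := ε / 4) (by linarith) (by linarith)
  have h2 : (1 : ℝ) ≤ (A : ℝ) ^ (ε / 4) := Real.one_le_rpow hA' (by linarith)
  have h3 : 0 ≤ Real.log A := Real.log_nonneg hA'
  have h4 : 1 + Real.log A ≤ (1 + 4 / ε) * (A : ℝ) ^ (ε / 4) := by
    have e1 : (A : ℝ) ^ (ε / 4) / (ε / 4) = 4 / ε * (A : ℝ) ^ (ε / 4) := by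
      field_simp
    rw [e1] at h1
    linarith
  have h5 : (A : ℝ) ^ (ε / 2) = ((A : ℝ) ^ (ε / 4)) ^ 2 := by
    rw [← Real.rpow_natCast ((A : ℝ) ^ (ε / 4)) 2, ← Real.rpow_mul (by linarith)]
    congr 1
    push_cast
    ring
  rw [h5, ← mul_pow]
  exact pow_le_pow_left₀ (by linarith) h4 2

theorem lrg_natlog {A : ℕ} (hA : 1 ≤ A) :
    (1 + Nat.log 2 (A + 1) : ℝ) ≤ 2 * (1 + Real.log A) := by
  have hA' : (1 : ℝ) ≤ A := by exact_mod_cast hA
  have hl2 : (0 : ℝ) < Real.log 2 := Real.log_pos (by norm_num)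
  have hl2' : 1 / 2 ≤ Real.log 2 := by
    have := Real.log_two_gt_d9
    linarith
  have h1 : (2 : ℝ) ^ (Nat.log 2 (A + 1)) ≤ 2 * A := by
    have h2 := Nat.pow_log_le_self 2 (x := A + 1) (by omega)
    have h3 : ((2 ^ Nat.log 2 (A + 1) : ℕ) : ℝ) ≤ ((A + 1 : ℕ) : ℝ) := by exact_mod_cast h2
    push_cast at h3
    linarith
  have h2 := Real.log_le_log (by positivity) h1
  rw [Real.log_pow, Real.log_mul (by norm_num) (by linarith)] at h2
  have h3 : 0 ≤ Real.log A := Real.log_nonneg hA'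
  have h4 : (Nat.log 2 (A + 1) : ℝ) ≤ 1 + 2 * Real.log A := by
    by_contra hcon
    push Not at hcon
    have h5 : (1 + 2 * Real.log A) * Real.log 2 < (Nat.log 2 (A + 1) : ℝ) * Real.log 2 :=
      mul_lt_mul_of_pos_right hcon hl2
    nlinarith
  linarith

set_option maxHeartbeats 1600000 in
theorem st_LRG (h1 : ST_PELL) (h2 : ST_CLS) (h3 : ST_SPL) : ST_LRG := by
  classical
  intro ε hε
  obtain ⟨C0, hC0, hdiv⟩ := Pool.Agent.Helper15.Hall.card_divisors_le_uniform (ε / 4) (by linarith)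
  refine ⟨(19 + 6 * C0) * (1 + 4 / ε) ^ 2, by positivity, ?_⟩
  intro A hA Y hY
  have hA' : (1 : ℝ) ≤ A := by exact_mod_cast hA
  obtain ⟨T, hT⟩ : ∃ T : ℝ, T = (A : ℝ) ^ (1 / 3 : ℝ) := ⟨_, rfl⟩
  have hT1 : 1 ≤ T := by rw [hT]; exact Real.one_le_rpow hA' (by norm_num)
  have hT3 : T ^ 3 = A := by
    rw [hT, ← Real.rpow_natCast, ← Real.rpow_mul (by linarith)]
    norm_num
  have hT2 : (A : ℝ) ^ (2 / 3 : ℝ) = T ^ 2 := by
    rw [hT, ← Real.rpow_natCast, ← Real.rpow_mul (by linarith)]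
    norm_num
  have hT0 : 0 < T := by linarith
  have hAT : (A : ℝ) / T = T ^ 2 := by
    rw [← hT3]
    field_simp
  have hT2A : T ^ 2 ≤ A := by
    rw [← hT3]
    exact pow_le_pow_right₀ hT1 (by norm_num)
  have hTA : T ≤ A := (le_self_pow₀ hT1 (by norm_num)).trans hT2A
  have hlog : 0 ≤ Real.log A := Real.log_nonneg hA'
  have hAe : (1 : ℝ) ≤ (A : ℝ) ^ (ε / 2) := Real.one_le_rpow hA' (by linarith)
  have hτ : ∀ s : ℕ, 1 ≤ s → (s : ℝ) ≤ A → ((s ^ 2).divisors.card : ℝ) ≤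
      C0 * (A : ℝ) ^ (ε / 2) := by
    intro s hs hsA
    have hsA' : s ≤ A := by exact_mod_cast hsA
    have h4 := hdiv (A ^ 2) (s ^ 2) (by positivity) (Nat.pow_le_pow_left hsA' 2)
    refine h4.trans (le_of_eq ?_)
    congr 1
    push_cast
    rw [← Real.rpow_natCast (A : ℝ) 2, ← Real.rpow_mul (by linarith)]
    congr 1
    push_cast
    ring
  -- the index sets
  obtain ⟨I1, hI1⟩ : ∃ I1 : Finset ℕ, I1 = Icc 1 ⌊3 * T ^ 2⌋₊ := ⟨_, rfl⟩
  obtain ⟨I2, hI2⟩ : ∃ I2 : Finset ℕ, I2 = (Icc 1 A).filter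
    (fun s : ℕ => T < (s : ℝ) ∧ (s : ℝ) ≤ T ^ 2) := ⟨_, rfl⟩
  obtain ⟨I3, hI3⟩ : ∃ I3 : Finset ℕ, I3 = (Icc 1 A).filter (fun r : ℕ => T < (r : ℝ)) := ⟨_, rfl⟩
  obtain ⟨I5, hI5⟩ : ∃ I5 : Finset ℕ, I5 = (Icc 1 A).filter (fun r : ℕ => (r : ℝ) ≤ T) := ⟨_, rfl⟩
  obtain ⟨I4, hI4⟩ : ∃ I4 : Finset (ℕ × ℕ), I4 = (I5 ×ˢ I5).filter
    (fun p : ℕ × ℕ => Y / 3 ≤ (p.1 : ℝ) * p.2 ∧ Nat.Coprime p.1 p.2) := ⟨_, rfl⟩
  have hsub : lrgS A Y ⊆ ((I1.biUnion fun v => pellS v A) ∪ (I2.biUnion fun s => clsS 1 s A)) ∪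
      ((I3.biUnion fun r => lrg_dv r A) ∪ (I4.biUnion fun p => clsS p.1 p.2 A)) := by
    intro a ha
    unfold lrgS at ha
    rw [mem_filter, mem_Icc] at ha
    obtain ⟨⟨ha1, ha2⟩, y, hy1, hy2⟩ := ha
    obtain ⟨r, s, u, v, hr, hs, hru, hsv, hrs, hyd⟩ := h3 a y ha1 hy2
    have hu : 1 ≤ u := by
      rcases Nat.eq_zero_or_pos u with h | h
      · rw [h, mul_zero] at hru
        omega
      · exact h
    have hv : 1 ≤ v := by
      rcases Nat.eq_zero_or_pos v with h | h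
      · rw [h, mul_zero] at hsv
        omega
      · exact h
    have ha2' : (a : ℝ) ≤ A := by exact_mod_cast ha2
    have ha1' : (2 : ℝ) ≤ a := by exact_mod_cast ha1
    have hrA : r ≤ A := by
      have e1 : r ≤ r ^ 2 * u := by nlinarith
      omega
    have hs1 : (1 : ℝ) ≤ s := by exact_mod_cast hs
    have hr1 : (1 : ℝ) ≤ r := by exact_mod_cast hr
    simp only [mem_union, mem_biUnion]
    by_cases c1 : T ^ 2 < s
    · left; left
      refine ⟨v, ?_, ?_⟩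
      · rw [hI1, mem_Icc]
        refine ⟨hv, Nat.le_floor ?_⟩
        have e1 : (a : ℝ) ^ 2 + a + 1 = (s : ℝ) ^ 2 * v := by exact_mod_cast hsv
        have e2 : (a : ℝ) ^ 2 + a + 1 ≤ 3 * (A : ℝ) ^ 2 := by nlinarith
        have e3 : (T ^ 2) ^ 2 ≤ (s : ℝ) ^ 2 := pow_le_pow_left₀ (by positivity) c1.le 2
        have hv0 : (0 : ℝ) ≤ v := Nat.cast_nonneg v
        have e4 : (T ^ 2) ^ 2 * v ≤ 3 * (A : ℝ) ^ 2 :=
          (mul_le_mul_of_nonneg_right e3 hv0).trans (by rw [← e1]; exact e2)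
        rw [← hT3] at e4
        have e5 : (T ^ 2) ^ 2 * (v : ℝ) ≤ (T ^ 2) ^ 2 * (3 * T ^ 2) := by
          calc (T ^ 2) ^ 2 * (v : ℝ) ≤ 3 * (T ^ 3) ^ 2 := e4
            _ = (T ^ 2) ^ 2 * (3 * T ^ 2) := by ring
        exact le_of_mul_le_mul_left e5 (by positivity)
      · unfold pellS
        rw [mem_filter, mem_Icc]
        exact ⟨⟨by omega, ha2⟩, s, by rw [hsv, mul_comm]⟩
    push Not at c1
    have hsA : s ≤ A := by
      have : (s : ℝ) ≤ A := c1.trans hT2A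
      exact_mod_cast this
    by_cases c2 : T < s
    · left; right
      refine ⟨s, ?_, ?_⟩
      · rw [hI2, mem_filter, mem_Icc]
        exact ⟨⟨hs, hsA⟩, c2, c1⟩
      · unfold clsS
        rw [mem_filter, mem_Icc]
        exact ⟨⟨by omega, ha2⟩, by rw [one_pow]; exact one_dvd _, ⟨v, hsv⟩⟩
    push Not at c2
    by_cases c3 : T < r
    · right; left
      refine ⟨r, ?_, ?_⟩
      · rw [hI3, mem_filter, mem_Icc]
        exact ⟨⟨hr, hrA⟩, c3⟩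
      · unfold lrg_dv
        rw [mem_filter, mem_Icc]
        exact ⟨⟨ha1, ha2⟩, ⟨u, hru⟩⟩
    push Not at c3
    right; right
    refine ⟨(r, s), ?_, ?_⟩
    · rw [hI4, mem_filter, mem_product, hI5, mem_filter, mem_filter, mem_Icc, mem_Icc]
      refine ⟨⟨⟨⟨hr, hrA⟩, c3⟩, ⟨⟨hs, hsA⟩, c2⟩⟩, ?_, hrs⟩
      have e1 : y ≤ 3 * r * s := Nat.le_of_dvd (by positivity) hyd
      have e2 : (y : ℝ) ≤ 3 * r * s := by exact_mod_cast e1
      simp only
      linarith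
    · unfold clsS
      rw [mem_filter, mem_Icc]
      exact ⟨⟨by omega, ha2⟩, ⟨u, hru⟩, ⟨v, hsv⟩⟩
  have hcard : ((lrgS A Y).card : ℝ) ≤ (∑ v ∈ I1, ((pellS v A).card : ℝ) +
      ∑ s ∈ I2, ((clsS 1 s A).card : ℝ)) + (∑ r ∈ I3, ((lrg_dv r A).card : ℝ) +
      ∑ p ∈ I4, ((clsS p.1 p.2 A).card : ℝ)) := by
    have e1 := (Finset.card_le_card hsub).trans (Finset.card_union_le _ _)
    have e2 := Finset.card_union_le (I1.biUnion fun v => pellS v A) (I2.biUnion fun s => clsS 1 s A)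
    have e3 := Finset.card_union_le (I3.biUnion fun r => lrg_dv r A)
      (I4.biUnion fun p => clsS p.1 p.2 A)
    have e4 := Finset.card_biUnion_le (s := I1) (t := fun v => pellS v A)
    have e5 := Finset.card_biUnion_le (s := I2) (t := fun s => clsS 1 s A)
    have e6 := Finset.card_biUnion_le (s := I3) (t := fun r => lrg_dv r A)
    have e7 := Finset.card_biUnion_le (s := I4) (t := fun p => clsS p.1 p.2 A)
    have e8 : (lrgS A Y).card ≤ (∑ v ∈ I1, (pellS v A).card + ∑ s ∈ I2, (clsS 1 s A).card) +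
      (∑ r ∈ I3, (lrg_dv r A).card + ∑ p ∈ I4, (clsS p.1 p.2 A).card) := by omega
    exact_mod_cast e8
  have hL1 : 1 ≤ 1 + Real.log A := by linarith
  have hLL : 1 + Real.log A ≤ (1 + Real.log A) ^ 2 := le_self_pow₀ hL1 (by norm_num)
  have hL2 : 1 ≤ (1 + Real.log A) ^ 2 := hL1.trans hLL
  have hT21 : 0 ≤ T ^ 2 := by positivity
  -- the four sums
  have s1 : ∑ v ∈ I1, ((pellS v A).card : ℝ) ≤ 18 * (T ^ 2 * (1 + Real.log A) ^ 2) := by
    have e1 : ∀ v ∈ I1, ((pellS v A).card : ℝ) ≤ 6 * (1 + Real.log A) := by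
      intro v hv
      rw [hI1, mem_Icc] at hv
      have f1 : ((pellS v A).card : ℝ) ≤ 3 * (1 + Nat.log 2 (A + 1) : ℝ) := by
        exact_mod_cast h1 v A hv.1 hA
      have f2 := lrg_natlog hA
      linarith
    refine (Finset.sum_le_sum e1).trans ?_
    rw [Finset.sum_const, nsmul_eq_mul]
    have e2 : (I1.card : ℝ) ≤ 3 * T ^ 2 := by
      rw [hI1, Nat.card_Icc, Nat.add_sub_cancel]
      exact Nat.floor_le (by positivity)
    calc (I1.card : ℝ) * (6 * (1 + Real.log A)) ≤ 3 * T ^ 2 * (6 * (1 + Real.log A) ^ 2) := by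
          gcongr
      _ = _ := by ring
  have s2 : ∑ s ∈ I2, ((clsS 1 s A).card : ℝ) ≤
      2 * C0 * ((A : ℝ) ^ (ε / 2) * (T ^ 2 * (1 + Real.log A) ^ 2)) := by
    have e1 : ∀ s ∈ I2, ((clsS 1 s A).card : ℝ) ≤
        C0 * (A : ℝ) ^ (ε / 2) * ((A : ℝ) / (s : ℝ) ^ 2 + 1) := by
      intro s hs
      rw [hI2, mem_filter, mem_Icc] at hs
      obtain ⟨⟨f1, f2⟩, f3, f4⟩ := hs
      have f5 := h2 1 s A le_rfl f1 (Nat.coprime_one_left s)
      rw [Nat.cast_one, one_mul] at f5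
      exact f5.trans (mul_le_mul_of_nonneg_right (hτ s f1 (by exact_mod_cast f2)) (by positivity))
    refine (Finset.sum_le_sum e1).trans ?_
    rw [← Finset.mul_sum, Finset.sum_add_distrib, Finset.sum_const, nsmul_eq_mul, mul_one]
    have e2 : ∑ s ∈ I2, (A : ℝ) / (s : ℝ) ^ 2 ≤ T ^ 2 * (1 + Real.log A) := by
      rw [← hAT]
      apply lrg_inv2 hT0
      · rw [hI2]; exact filter_subset _ _
      · intro s hs
        rw [hI2, mem_filter] at hs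
        exact hs.2.1
    have e3 : (I2.card : ℝ) ≤ T ^ 2 := by
      apply lrg_count hT21
      intro s hs
      rw [hI2, mem_filter, mem_Icc] at hs
      exact ⟨hs.1.1, hs.2.2⟩
    have e4 : ∑ s ∈ I2, (A : ℝ) / (s : ℝ) ^ 2 + (I2.card : ℝ) ≤
        2 * (T ^ 2 * (1 + Real.log A) ^ 2) := by
      have f1 : T ^ 2 * (1 + Real.log A) ≤ T ^ 2 * (1 + Real.log A) ^ 2 :=
        mul_le_mul_of_nonneg_left hLL hT21
      have f2 : T ^ 2 * 1 ≤ T ^ 2 * (1 + Real.log A) ^ 2 := mul_le_mul_of_nonneg_left hL2 hT21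
      linarith
    calc C0 * (A : ℝ) ^ (ε / 2) * (∑ s ∈ I2, (A : ℝ) / (s : ℝ) ^ 2 + (I2.card : ℝ)) ≤
        C0 * (A : ℝ) ^ (ε / 2) * (2 * (T ^ 2 * (1 + Real.log A) ^ 2)) :=
          mul_le_mul_of_nonneg_left e4 (by positivity)
      _ = _ := by ring
  have s3 : ∑ r ∈ I3, ((lrg_dv r A).card : ℝ) ≤ T ^ 2 * (1 + Real.log A) ^ 2 := by
    have e1 : ∀ r ∈ I3, ((lrg_dv r A).card : ℝ) ≤ (A : ℝ) / (r : ℝ) ^ 2 := by
      intro r hr
      rw [hI3, mem_filter, mem_Icc] at hr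
      exact lrg_dv_card hr.1.1
    refine (Finset.sum_le_sum e1).trans ?_
    have e2 : ∑ s ∈ I3, (A : ℝ) / (s : ℝ) ^ 2 ≤ T ^ 2 * (1 + Real.log A) := by
      rw [← hAT]
      apply lrg_inv2 hT0
      · rw [hI3]; exact filter_subset _ _
      · intro s hs
        rw [hI3, mem_filter] at hs
        exact hs.2
    exact e2.trans (mul_le_mul_of_nonneg_left hLL hT21)
  have s4 : ∑ p ∈ I4, ((clsS p.1 p.2 A).card : ℝ) ≤
      3 * C0 * ((A : ℝ) ^ (ε / 2) * ((A / Y + T ^ 2) * (1 + Real.log A) ^ 2)) := by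
    have e1 : ∀ p ∈ I4, ((clsS p.1 p.2 A).card : ℝ) ≤ C0 * (A : ℝ) ^ (ε / 2) *
        (3 * A / Y * ((1 / (p.1 : ℝ)) * (1 / (p.2 : ℝ))) + 1) := by
      intro p hp
      rw [hI4, mem_filter, mem_product, hI5, mem_filter, mem_filter, mem_Icc, mem_Icc] at hp
      obtain ⟨⟨⟨⟨f1, f2⟩, f3⟩, ⟨⟨f4, f5⟩, f6⟩⟩, f7, f8⟩ := hp
      have g1 := h2 p.1 p.2 A f1 f4 f8
      have g2 := hτ p.2 f4 (by exact_mod_cast f5)
      have p1 : (0 : ℝ) < p.1 := by exact_mod_cast f1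
      have p2 : (0 : ℝ) < p.2 := by exact_mod_cast f4
      have g3 : (A : ℝ) / ((p.1 : ℝ) * p.2) ^ 2 ≤ 3 * A / Y * ((1 / (p.1 : ℝ)) * (1 / (p.2 : ℝ))) := by
        rw [one_div_mul_one_div, div_mul_div_comm, mul_one, div_le_div_iff₀ (by positivity)
          (by positivity)]
        have g4 : Y * ((p.1 : ℝ) * p.2) ≤ 3 * ((p.1 : ℝ) * p.2) ^ 2 := by
          have : Y ≤ 3 * ((p.1 : ℝ) * p.2) := by linarith
          nlinarith [mul_pos p1 p2]
        have hA0 : (0 : ℝ) ≤ A := by linarith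
        calc (A : ℝ) * (Y * ((p.1 : ℝ) * p.2)) ≤ A * (3 * ((p.1 : ℝ) * p.2) ^ 2) :=
              mul_le_mul_of_nonneg_left g4 hA0
          _ = _ := by ring
      refine g1.trans ?_
      exact mul_le_mul g2 (by linarith) (by positivity) (by positivity)
    refine (Finset.sum_le_sum e1).trans ?_
    rw [← Finset.mul_sum, Finset.sum_add_distrib, Finset.sum_const, nsmul_eq_mul, mul_one,
      ← Finset.mul_sum]
    have hI4s : I4 ⊆ I5 ×ˢ I5 := by rw [hI4]; exact filter_subset _ _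
    have e2 : ∑ p ∈ I4, (1 / (p.1 : ℝ)) * (1 / (p.2 : ℝ)) ≤ (1 + Real.log A) ^ 2 := by
      have f1 : ∑ p ∈ I4, (1 / (p.1 : ℝ)) * (1 / (p.2 : ℝ)) ≤
          ∑ p ∈ (Icc 1 A) ×ˢ (Icc 1 A), (1 / (p.1 : ℝ)) * (1 / (p.2 : ℝ)) := by
        apply Finset.sum_le_sum_of_subset_of_nonneg
        · refine hI4s.trans (Finset.product_subset_product ?_ ?_) <;>
            (rw [hI5]; exact filter_subset _ _)
        · intro p _ _
          positivity
      refine f1.trans ?_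
      rw [Finset.sum_product' (f := fun r s : ℕ => (1 / (r : ℝ)) * (1 / (s : ℝ))),
        ← Finset.sum_mul_sum, pow_two]
      have f2 := lrg_harm A
      have f3 : 0 ≤ ∑ s ∈ Icc 1 A, 1 / (s : ℝ) := Finset.sum_nonneg fun _ _ => by positivity
      exact mul_le_mul f2 f2 f3 (by linarith)
    have e3 : (I4.card : ℝ) ≤ T ^ 2 := by
      have f1 := Finset.card_le_card hI4s
      rw [Finset.card_product] at f1
      have f2 : (I5.card : ℝ) ≤ T := by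
        apply lrg_count hT0.le
        intro s hs
        rw [hI5, mem_filter, mem_Icc] at hs
        exact ⟨hs.1.1, hs.2⟩
      have f3 : (I4.card : ℝ) ≤ (I5.card : ℝ) * I5.card := by exact_mod_cast f1
      refine f3.trans ?_
      rw [pow_two]
      exact mul_le_mul f2 f2 (Nat.cast_nonneg _) hT0.le
    have hAY : 0 ≤ A / Y := by positivity
    have e4 : 3 * A / Y * ∑ p ∈ I4, (1 / (p.1 : ℝ)) * (1 / (p.2 : ℝ)) + (I4.card : ℝ) ≤
        3 * ((A / Y + T ^ 2) * (1 + Real.log A) ^ 2) := by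
      have f1 : 3 * A / Y * ∑ p ∈ I4, (1 / (p.1 : ℝ)) * (1 / (p.2 : ℝ)) ≤
          3 * A / Y * (1 + Real.log A) ^ 2 :=
        mul_le_mul_of_nonneg_left e2 (by positivity)
      have f2 : T ^ 2 * 1 ≤ T ^ 2 * (1 + Real.log A) ^ 2 := mul_le_mul_of_nonneg_left hL2 hT21
      have f3 : 3 * (A : ℝ) / Y = 3 * (A / Y) := by ring
      rw [f3] at f1 ⊢
      have f4 : 0 ≤ T ^ 2 * (1 + Real.log A) ^ 2 := by positivity
      nlinarith
    calc C0 * (A : ℝ) ^ (ε / 2) *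
        (3 * A / Y * ∑ p ∈ I4, (1 / (p.1 : ℝ)) * (1 / (p.2 : ℝ)) + (I4.card : ℝ)) ≤
        C0 * (A : ℝ) ^ (ε / 2) * (3 * ((A / Y + T ^ 2) * (1 + Real.log A) ^ 2)) :=
          mul_le_mul_of_nonneg_left e4 (by positivity)
      _ = _ := by ring
  -- the total
  have hAY : 0 ≤ (A : ℝ) / Y := by positivity
  obtain ⟨Q, hQ⟩ : ∃ Q : ℝ, Q = (A / Y + T ^ 2) * (1 + Real.log A) ^ 2 := ⟨_, rfl⟩
  have hQ1 : T ^ 2 * (1 + Real.log A) ^ 2 ≤ Q := by
    rw [hQ]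
    apply mul_le_mul_of_nonneg_right _ (by positivity)
    linarith
  have hQ0 : 0 ≤ Q := by rw [hQ]; positivity
  have hQ2 : Q ≤ (A : ℝ) ^ (ε / 2) * Q := le_mul_of_one_le_left hQ0 hAe
  have htot : ((lrgS A Y).card : ℝ) ≤ (19 + 6 * C0) * ((A : ℝ) ^ (ε / 2) * Q) := by
    rw [← hQ] at s4
    have g1 : 2 * C0 * ((A : ℝ) ^ (ε / 2) * (T ^ 2 * (1 + Real.log A) ^ 2)) ≤
        2 * C0 * ((A : ℝ) ^ (ε / 2) * Q) := by gcongr
    have g2 : 0 ≤ C0 * ((A : ℝ) ^ (ε / 2) * Q) := by positivity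
    nlinarith
  refine htot.trans ?_
  rw [hT2]
  have hlg := lrg_log hε hA
  have hsplit : (A : ℝ) ^ ε = (A : ℝ) ^ (ε / 2) * (A : ℝ) ^ (ε / 2) := by
    rw [← Real.rpow_add (by linarith)]
    congr 1
    ring
  rw [hQ, hsplit]
  have g3 : (A / Y + T ^ 2) * (1 + Real.log A) ^ 2 ≤
      (A / Y + T ^ 2) * ((1 + 4 / ε) ^ 2 * (A : ℝ) ^ (ε / 2)) :=
    mul_le_mul_of_nonneg_left hlg (by positivity)
  calc (19 + 6 * C0) * ((A : ℝ) ^ (ε / 2) * ((A / Y + T ^ 2) * (1 + Real.log A) ^ 2)) ≤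
      (19 + 6 * C0) * ((A : ℝ) ^ (ε / 2) *
        ((A / Y + T ^ 2) * ((1 + 4 / ε) ^ 2 * (A : ℝ) ^ (ε / 2)))) := by gcongr
    _ = _ := by ring

end Pool.Agent.Helper46.CU
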